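import Pool.Agent.H295R2.Nic.Defs
import Pool.Agent.Helper923.PNT

/-!
# C4: `LoLong` (many integers with large `n/φ(n)`: remove few primes from `(y/2, y]`)
-/

set_option autoImplicit false

open MeasureTheory Filter Topology Set

namespace Pool.Agent.H131R2.NicLoLong

open Pool.Agent.H295R2 Pool.Agent.H295R2.Nic

noncomputable section

/-- the primes up to `y` -/
def PP (y : ℝ) : Finset ℕ := (Finset.Icc 1 ⌊y⌋₊).filter Nat.Prime

theorem mem_PP {y : ℝ} {p : ℕ} (hy : 0 ≤ y) : p ∈ PP y ↔ p.Prime ∧ (p : ℝ) ≤ y := by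
  unfold PP
  rw [Finset.mem_filter, Finset.mem_Icc]
  constructor
  · rintro ⟨⟨h1, h2⟩, h3⟩
    exact ⟨h3, (Nat.le_floor_iff hy).1 h2⟩
  · rintro ⟨h1, h2⟩
    exact ⟨⟨h1.one_lt.le, Nat.le_floor h2⟩, h1⟩

theorem theta_eq (y : ℝ) : Chebyshev.theta y = ∑ p ∈ PP y, Real.log p := by
  unfold Chebyshev.theta PP
  apply Finset.sum_congr _ (fun _ _ => rfl)
  congr 1

/-- `f(p) = -log(1-1/p)` -/
def ff (p : ℕ) : ℝ := -Real.log (1 - 1 / (p : ℝ))

theorem ff_le {p : ℕ} (hp : p.Prime) : ff p ≤ 2 / p := by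
  have h2 : (2 : ℝ) ≤ p := by exact_mod_cast hp.two_le
  have hp0 : (0 : ℝ) < p := by linarith
  have hpos : 0 < 1 - 1 / (p : ℝ) := by
    rw [sub_pos, div_lt_one hp0]; linarith
  have h3 := Real.one_sub_inv_le_log_of_pos hpos
  unfold ff
  have h4 : (1 - 1 / (p : ℝ))⁻¹ = 1 + 1 / ((p : ℝ) - 1) := by
    have : (p : ℝ) - 1 ≠ 0 := by linarith
    have h5 : (1 - 1 / (p : ℝ)) = (p - 1) / p := by field_simp
    rw [h5, inv_div]
    field_simp
    ring
  rw [h4] at h3
  have h6 : 1 / ((p : ℝ) - 1) ≤ 2 / p := by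
    rw [div_le_div_iff₀ (by linarith) hp0]
    linarith
  linarith

theorem ff_nonneg {p : ℕ} (hp : p.Prime) : 0 ≤ ff p := by
  have h2 : (2 : ℝ) ≤ p := by exact_mod_cast hp.two_le
  have hp0 : (0 : ℝ) < p := by linarith
  unfold ff
  rw [neg_nonneg]
  apply Real.log_nonpos
  · rw [sub_nonneg, div_le_one hp0]; linarith
  · have : 0 < 1 / (p : ℝ) := by positivity
    linarith

theorem MP_eq (y : ℝ) : MP y = ∑ p ∈ PP y, ff p := rfl

theorem log_ratio (S : Finset ℕ) (hS : ∀ p ∈ S, p.Prime) :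
    Real.log (((∏ p ∈ S, p : ℕ) : ℝ) / Nat.totient (∏ p ∈ S, p)) = ∑ p ∈ S, ff p := by
  have hn0 : (∏ p ∈ S, p) ≠ 0 := Finset.prod_ne_zero_iff.2 fun p hp => (hS p hp).ne_zero
  have h1 := Nat.totient_eq_mul_prod_factors (∏ p ∈ S, p)
  rw [Nat.primeFactors_prod hS] at h1
  have h2 : ((Nat.totient (∏ p ∈ S, p) : ℕ) : ℝ) =
      ((∏ p ∈ S, p : ℕ) : ℝ) * ∏ p ∈ S, (1 - (p : ℝ)⁻¹) := by
    have := congrArg (fun q : ℚ => (q : ℝ)) h1
    simp only [Rat.cast_mul, Rat.cast_natCast, Rat.cast_prod, Rat.cast_sub, Rat.cast_one,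
      Rat.cast_inv] at this
    exact this
  rw [h2]
  have hnR : (((∏ p ∈ S, p : ℕ)) : ℝ) ≠ 0 := by exact_mod_cast hn0
  rw [div_mul_eq_div_div, div_self hnR, one_div, Real.log_inv, Real.log_prod]
  · rw [← Finset.sum_neg_distrib]
    apply Finset.sum_congr rfl
    intro p _
    unfold ff
    rw [one_div]
  · intro p hp
    have h2 : (2 : ℝ) ≤ p := by exact_mod_cast (hS p hp).two_le
    have : (p : ℝ)⁻¹ < 1 := inv_lt_one_of_one_lt₀ (by linarith)
    linarith

theorem log_prod (S : Finset ℕ) (hS : ∀ p ∈ S, p.Prime) :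
    Real.log ((∏ p ∈ S, p : ℕ) : ℝ) = ∑ p ∈ S, Real.log p := by
  push_cast
  rw [Real.log_prod]
  intro p hp
  exact_mod_cast (hS p hp).ne_zero

theorem near_finite (y B : ℝ) : (Near y B).Finite := by
  refine (Set.finite_le_nat ⌊Real.exp (2 * y)⌋₊).subset ?_
  intro n hn
  have h1 := hn.2.1
  simp only [Set.mem_ofPred_eq]
  apply Nat.le_floor
  rcases Nat.eq_zero_or_pos n with h0 | h0
  · rw [h0, Nat.cast_zero]; positivity
  · have hn0 : (0 : ℝ) < n := by exact_mod_cast h0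
    rwa [Real.log_le_iff_le_exp hn0] at h1

/-- The main construction. -/
theorem near_of {y B : ℝ} {κ : ℝ} {k : ℕ} (hy : 6 ≤ y) (hk : (k : ℝ) ≤ y ^ (1 - κ) / 4)
    (h1 : Chebyshev.theta y ≤ 2 * y) (h2 : y / 2 ≤ Chebyshev.theta y - k * Real.log y)
    (hB : y ^ (-κ) ≤ fN y + B) (A : Finset ℕ) (hA : ∀ p ∈ A, p.Prime ∧ (p : ℝ) ≤ y ∧ y / 2 < p)
    (hAk : A.card ≤ k) : (∏ p ∈ PP y \ A, p) ∈ Near y B := by
  have hy0 : 0 < y := by linarith
  have hAP : A ⊆ PP y := by
    intro p hp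
    rw [mem_PP hy0.le]
    exact ⟨(hA p hp).1, (hA p hp).2.1⟩
  have hS : ∀ p ∈ PP y \ A, p.Prime := by
    intro p hp
    exact ((mem_PP hy0.le).1 (Finset.mem_sdiff.1 hp).1).1
  have hlog : Real.log ((∏ p ∈ PP y \ A, p : ℕ) : ℝ) =
      Chebyshev.theta y - ∑ p ∈ A, Real.log p := by
    rw [log_prod _ hS, theta_eq, ← Finset.sum_sdiff hAP]
    ring
  have hlogy : 0 ≤ Real.log y := Real.log_nonneg (by linarith)
  have hsumA : ∑ p ∈ A, Real.log (p : ℝ) ≤ k * Real.log y := by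
    calc ∑ p ∈ A, Real.log (p : ℝ) ≤ ∑ _p ∈ A, Real.log y := by
          apply Finset.sum_le_sum
          intro p hp
          apply Real.log_le_log
          · exact_mod_cast (hA p hp).1.pos
          · exact (hA p hp).2.1
      _ = A.card * Real.log y := by rw [Finset.sum_const, nsmul_eq_mul]
      _ ≤ k * Real.log y := by
          apply mul_le_mul_of_nonneg_right _ hlogy
          exact_mod_cast hAk
  have hsumA0 : 0 ≤ ∑ p ∈ A, Real.log (p : ℝ) := by
    apply Finset.sum_nonneg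
    intro p hp
    apply Real.log_nonneg
    exact_mod_cast (hA p hp).1.one_lt.le
  have hlow : y / 2 ≤ Real.log ((∏ p ∈ PP y \ A, p : ℕ) : ℝ) := by
    rw [hlog]; linarith
  have hup : Real.log ((∏ p ∈ PP y \ A, p : ℕ) : ℝ) ≤ Chebyshev.theta y := by
    rw [hlog]; linarith
  refine ⟨hlow, by linarith, ?_⟩
  rw [log_ratio _ hS]
  have hsumf : ∑ p ∈ PP y \ A, ff p = MP y - ∑ p ∈ A, ff p := by
    rw [MP_eq, ← Finset.sum_sdiff hAP]
    ring
  have hfA : ∑ p ∈ A, ff p ≤ y ^ (-κ) := by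
    calc ∑ p ∈ A, ff p ≤ ∑ _p ∈ A, 4 / y := by
          apply Finset.sum_le_sum
          intro p hp
          refine (ff_le (hA p hp).1).trans ?_
          have hp0 : (0 : ℝ) < p := by exact_mod_cast (hA p hp).1.pos
          rw [div_le_div_iff₀ hp0 hy0]
          linarith [(hA p hp).2.2]
      _ = A.card * (4 / y) := by rw [Finset.sum_const, nsmul_eq_mul]
      _ ≤ k * (4 / y) := by
          apply mul_le_mul_of_nonneg_right _ (by positivity)
          exact_mod_cast hAk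
      _ ≤ y ^ (1 - κ) / 4 * (4 / y) := by
          apply mul_le_mul_of_nonneg_right hk (by positivity)
      _ = y ^ (-κ) := by
          have : y ^ (1 - κ) = y * y ^ (-κ) := by
            rw [sub_eq_add_neg, Real.rpow_add hy0, Real.rpow_one]
          rw [this]
          field_simp
  rw [hsumf]
  have hlll : Real.log (Real.log (Real.log ((∏ p ∈ PP y \ A, p : ℕ) : ℝ))) ≤
      Real.log (Real.log (Chebyshev.theta y)) := by
    have h3 : (3 : ℝ) ≤ Real.log ((∏ p ∈ PP y \ A, p : ℕ) : ℝ) := by linarith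
    have h4 : 0 < Real.log (Real.log ((∏ p ∈ PP y \ A, p : ℕ) : ℝ)) :=
      Real.log_pos (by linarith)
    apply Real.log_le_log h4
    apply Real.log_le_log (by linarith) hup
  unfold fN at hB
  linarith

theorem exists_Y₀ (κ ε : ℝ) (hκ : 0 < κ) (hκ1 : κ < 1) (hε : 0 < ε) : ∃ Y₀ : ℝ, ∀ y : ℝ, Y₀ ≤ y →
    6 ≤ y ∧ 3 / 4 * y ≤ Chebyshev.theta y ∧ y / 8 ≤ Chebyshev.theta y - Chebyshev.theta (y / 2) ∧
    Real.log y ≤ y ^ κ / 2 ∧ y ^ (1 - κ - ε) ≤ (y ^ (1 - κ) / 4 - 1) * Real.log 2 := by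
  have ht := Pool.Agent.Helper923.PNT.theta_div_tendsto
  have h1 : ∀ᶠ y : ℝ in atTop, 9 / 10 < Chebyshev.theta y / y :=
    ht.eventually (lt_mem_nhds (by norm_num))
  have h2 : ∀ᶠ y : ℝ in atTop, Chebyshev.theta y / y < 11 / 10 :=
    ht.eventually (gt_mem_nhds (by norm_num))
  have hhalf : Tendsto (fun y : ℝ => y / 2) atTop atTop :=
    tendsto_id.atTop_div_const (by norm_num)
  have h2' := hhalf.eventually h2
  have h3 : ∀ᶠ y : ℝ in atTop, Real.log y ≤ y ^ κ / 2 := by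
    have := (isLittleO_log_rpow_atTop hκ).def (show (0 : ℝ) < 1 / 2 by norm_num)
    filter_upwards [this, eventually_ge_atTop 1] with y hy hy1
    rw [Real.norm_of_nonneg (Real.log_nonneg hy1), Real.norm_of_nonneg (by positivity)] at hy
    linarith
  have h4 : ∀ᶠ y : ℝ in atTop, y ^ (-ε) ≤ Real.log 2 / 8 := by
    have := tendsto_rpow_neg_atTop hε
    have hl : 0 < Real.log 2 / 8 := by
      have := Real.log_pos (show (1:ℝ) < 2 by norm_num)
      positivity
    exact this.eventually (ge_mem_nhds hl)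
  have h5 : ∀ᶠ y : ℝ in atTop, 8 ≤ y ^ (1 - κ) :=
    (tendsto_rpow_atTop (show 0 < 1 - κ by linarith)).eventually_ge_atTop 8
  have hall := (h1.and (h2'.and (h3.and (h4.and (h5.and (eventually_ge_atTop (6 : ℝ)))))))
  obtain ⟨Y₀, hY⟩ := eventually_atTop.1 hall
  refine ⟨Y₀, fun y hy => ?_⟩
  obtain ⟨a1, a2, a3, a4, a5, a6⟩ := hY y hy
  have hy0 : 0 < y := by linarith
  have b1 : 9 / 10 * y < Chebyshev.theta y := by
    rwa [lt_div_iff₀ hy0] at a1
  have b2 : Chebyshev.theta (y / 2) < 11 / 10 * (y / 2) := by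
    rwa [div_lt_iff₀ (by linarith)] at a2
  refine ⟨a6, by linarith, by linarith, a3, ?_⟩
  have hl2 := Real.log_pos (show (1:ℝ) < 2 by norm_num)
  have e1 : y ^ (1 - κ - ε) = y ^ (1 - κ) * y ^ (-ε) := by
    rw [sub_eq_add_neg (1 - κ) ε, Real.rpow_add hy0]
  rw [e1]
  calc y ^ (1 - κ) * y ^ (-ε) ≤ y ^ (1 - κ) * (Real.log 2 / 8) :=
        mul_le_mul_of_nonneg_left a4 (by positivity)
    _ ≤ (y ^ (1 - κ) / 4 - 1) * Real.log 2 := by nlinarith

theorem loLong : Pool.Agent.H295R2.Nic.LoLong := by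
  intro κ ε hκ hκ1 hε
  obtain ⟨Y₀, hY⟩ := exists_Y₀ κ ε hκ hκ1 hε
  refine ⟨Y₀, fun y B hy hB => ?_⟩
  obtain ⟨h6, ht1, ht2, hlog, hexp⟩ := hY y hy
  have hy0 : 0 < y := by linarith
  have hlogpos : 0 < Real.log y := Real.log_pos (by linarith)
  set k : ℕ := ⌊y ^ (1 - κ) / 4⌋₊ with hk
  have hk1 : (k : ℝ) ≤ y ^ (1 - κ) / 4 := Nat.floor_le (by positivity)
  have hk2 : y ^ (1 - κ) / 4 - 1 ≤ k := (Nat.sub_one_lt_floor _).le
  have hyy : y ^ (1 - κ) * y ^ κ = y := by
    rw [← Real.rpow_add hy0]; simp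
  have hklog : (k : ℝ) * Real.log y ≤ y / 8 := by
    calc (k : ℝ) * Real.log y ≤ (y ^ (1 - κ) / 4) * (y ^ κ / 2) :=
          mul_le_mul hk1 hlog hlogpos.le (by positivity)
      _ = y / 8 := by
          calc (y ^ (1 - κ) / 4) * (y ^ κ / 2) = (y ^ (1 - κ) * y ^ κ) / 8 := by ring
            _ = y / 8 := by rw [hyy]
  -- the primes in (y/2, y]
  set A0 : Finset ℕ := (PP y).filter (fun p => y / 2 < (p : ℝ)) with hA0
  have hcard : k ≤ A0.card := by
    have hsub : PP (y / 2) ⊆ PP y := by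
      intro p hp
      rw [mem_PP (by linarith)] at hp
      rw [mem_PP hy0.le]
      exact ⟨hp.1, by linarith [hp.2]⟩
    have hsd : PP y \ PP (y / 2) = A0 := by
      ext p
      rw [Finset.mem_sdiff, hA0, Finset.mem_filter, mem_PP hy0.le, mem_PP (by linarith : 0 ≤ y / 2)]
      constructor
      · rintro ⟨h1, h2⟩
        refine ⟨h1, ?_⟩
        by_contra h3
        exact h2 ⟨h1.1, not_lt.1 h3⟩
      · rintro ⟨h1, h2⟩
        exact ⟨h1, fun h3 => absurd h3.2 (not_le.2 h2)⟩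
    have hdiff : Chebyshev.theta y - Chebyshev.theta (y / 2) = ∑ p ∈ A0, Real.log p := by
      rw [theta_eq, theta_eq, ← Finset.sum_sdiff hsub, hsd]
      ring
    have hle : ∑ p ∈ A0, Real.log (p : ℝ) ≤ A0.card * Real.log y := by
      rw [← nsmul_eq_mul, ← Finset.sum_const]
      apply Finset.sum_le_sum
      intro p hp
      rw [hA0, Finset.mem_filter, mem_PP hy0.le] at hp
      exact Real.log_le_log (by exact_mod_cast hp.1.1.pos) hp.1.2
    have h7 : (k : ℝ) * Real.log y ≤ A0.card * Real.log y := by linarith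
    exact_mod_cast le_of_mul_le_mul_right h7 hlogpos
  obtain ⟨A1, hA1, hA1k⟩ := Finset.exists_subset_card_eq hcard
  have hmem : ∀ p ∈ A1, p.Prime ∧ (p : ℝ) ≤ y ∧ y / 2 < p := by
    intro p hp
    have := hA1 hp
    rw [hA0, Finset.mem_filter, mem_PP hy0.le] at this
    exact ⟨this.1.1, this.1.2, this.2⟩
  set g : Finset ℕ → ℕ := fun A => ∏ p ∈ PP y \ A, p with hg
  have hinj : Set.InjOn g (A1.powerset : Set (Finset ℕ)) := by
    intro A hA A' hA' hAA
    rw [Finset.mem_coe, Finset.mem_powerset] at hA hA'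
    have hsubP : A1 ⊆ PP y := by
      intro p hp
      rw [mem_PP hy0.le]
      exact ⟨(hmem p hp).1, (hmem p hp).2.1⟩
    have e1 : (∏ p ∈ PP y \ A, p).primeFactors = PP y \ A := Nat.primeFactors_prod
      (fun p hp => ((mem_PP hy0.le).1 (Finset.mem_sdiff.1 hp).1).1)
    have e2 : (∏ p ∈ PP y \ A', p).primeFactors = PP y \ A' := Nat.primeFactors_prod
      (fun p hp => ((mem_PP hy0.le).1 (Finset.mem_sdiff.1 hp).1).1)
    have e3 : PP y \ A = PP y \ A' := by
      rw [← e1, ← e2]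
      exact congrArg Nat.primeFactors hAA
    have e4 := congrArg (fun S => PP y \ S) e3
    simp only [Finset.sdiff_sdiff_eq_self (hA.trans hsubP),
      Finset.sdiff_sdiff_eq_self (hA'.trans hsubP)] at e4
    exact e4
  have hsub : ((A1.powerset.image g : Finset ℕ) : Set ℕ) ⊆ Near y B := by
    intro n hn
    rw [Finset.mem_coe, Finset.mem_image] at hn
    obtain ⟨A, hA, rfl⟩ := hn
    rw [Finset.mem_powerset] at hA
    apply near_of h6 hk1 _ (by linarith) hB A (fun p hp => hmem p (hA hp))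
    · rw [← hA1k]; exact Finset.card_le_card hA
    · have h8 := Chebyshev.theta_le_log4_mul_x hy0.le
      have h9 : Real.log 4 ≤ 2 := by
        have : Real.log 4 = 2 * Real.log 2 := by
          rw [show (4 : ℝ) = 2 ^ 2 by norm_num, Real.log_pow]; norm_num
        rw [this]
        have := Real.log_two_lt_d9
        linarith
      nlinarith
  have hcard2 : 2 ^ k ≤ (Near y B).ncard := by
    have h10 := Set.ncard_le_ncard hsub (near_finite y B)
    rw [Set.ncard_coe_finset, Finset.card_image_of_injOn hinj, Finset.card_powerset, hA1k] at h10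
    exact h10
  calc Real.exp (y ^ (1 - κ - ε)) ≤ Real.exp (k * Real.log 2) := by
        apply Real.exp_le_exp.2
        refine hexp.trans ?_
        exact mul_le_mul_of_nonneg_right hk2 (Real.log_pos (by norm_num)).le
    _ = (2 : ℝ) ^ k := by
        rw [mul_comm, Real.exp_mul, Real.exp_log (by norm_num)]
        simp
    _ ≤ ((Near y B).ncard : ℝ) := by exact_mod_cast hcard2

end

end Pool.Agent.H131R2.NicLoLong
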